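import Pool.Agent.H495.Transport2

set_option linter.unusedSectionVars false

namespace Pool.Agent.H495.S2

open Matrix MvPolynomial

namespace A337

section ind

variable {ι : Type} [Fintype ι] [DecidableEq ι] {e : ι → ℚ}

/-- Replace the levels outside of `s` by the identity. -/
def cut (e : ι → ℚ) (s : Finset ℚ) (h : Matrix ι ι ℂ) : Matrix ι ι ℂ :=
  Matrix.of fun p q => if e p ∈ s then h p q else (1 : Matrix ι ι ℂ) p q

/-- Block matrices. -/
def Blk (e : ι → ℚ) (h : Matrix ι ι ℂ) : Prop := ∀ p q, e p ≠ e q → h p q = 0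

theorem cut_apply (s : Finset ℚ) (h : Matrix ι ι ℂ) (p q : ι) :
    cut e s h p q = if e p ∈ s then h p q else (1 : Matrix ι ι ℂ) p q := rfl

theorem cut_mul (s : Finset ℚ) {A : Matrix ι ι ℂ} (hA : Blk e A) (B : Matrix ι ι ℂ) :
    cut e s (A * B) = cut e s A * cut e s B := by
  ext p q
  rw [cut_apply, Matrix.mul_apply, Matrix.mul_apply]
  by_cases hp : e p ∈ s
  · rw [if_pos hp]
    refine Finset.sum_congr rfl fun r _ => ?_
    rw [cut_apply, if_pos hp, cut_apply]
    by_cases hr : e p = e r
    · rw [if_pos (hr ▸ hp)]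
    · rw [hA p r hr, zero_mul, zero_mul]
  · rw [if_neg hp]
    have h1 : ∀ r, cut e s A p r * cut e s B r q =
        if p = r then (1 : Matrix ι ι ℂ) p q else 0 := by
      intro r
      rw [cut_apply, if_neg hp, Matrix.one_apply]
      by_cases hr : p = r
      · rw [if_pos hr, if_pos hr, one_mul, ← hr, cut_apply, if_neg hp]
      · rw [if_neg hr, if_neg hr, zero_mul]
    rw [Finset.sum_congr rfl fun r _ => h1 r, Finset.sum_ite_eq, if_pos (Finset.mem_univ p)]

theorem cut_one (s : Finset ℚ) : cut e s (1 : Matrix ι ι ℂ) = 1 := by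
  ext p q
  rw [cut_apply, ite_self]

theorem cut_blk (s : Finset ℚ) {h : Matrix ι ι ℂ} (hh : Blk e h) : Blk e (cut e s h) := by
  intro p q hpq
  have h1 : (1 : Matrix ι ι ℂ) p q = 0 := by
    rw [Matrix.one_apply, if_neg]
    rintro rfl
    exact hpq rfl
  rw [cut_apply, hh p q hpq, h1, ite_self]

theorem cut_mem (s : Finset ℚ) {h : Matrix ι ι ℂ} (hh : h ∈ HGroup e) : cut e s h ∈ HGroup e := by
  refine ⟨?_, cut_blk s hh.2⟩
  have h1 : h * h⁻¹ = 1 := Matrix.mul_nonsing_inv _ ((Matrix.isUnit_iff_isUnit_det h).1 hh.1)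
  have h2 := cut_mul s hh.2 h⁻¹
  rw [h1, cut_one] at h2
  exact IsUnit.of_mul_eq_one _ h2.symm

theorem cut_insert (s : Finset ℚ) (c : ℚ) (hc : c ∉ s) {h : Matrix ι ι ℂ} (hh : Blk e h) :
    cut e (insert c s) h = cut e {c} h * cut e s h := by
  ext p q
  rw [cut_apply, Matrix.mul_apply]
  by_cases hp : e p = c
  · rw [if_pos (by rw [hp]; exact Finset.mem_insert_self _ _)]
    have h1 : ∀ r, cut e {c} h p r * cut e s h r q = h p r * (1 : Matrix ι ι ℂ) r q := by
      intro r
      rw [cut_apply, if_pos (by rw [hp]; exact Finset.mem_singleton_self _), cut_apply]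
      by_cases hr : e p = e r
      · rw [if_neg (by rw [← hr, hp]; exact hc)]
      · rw [hh p r hr, zero_mul, zero_mul]
    rw [Finset.sum_congr rfl fun r _ => h1 r, ← Matrix.mul_apply, Matrix.mul_one]
  · have h1 : ∀ r, cut e {c} h p r * cut e s h r q = (1 : Matrix ι ι ℂ) p r * cut e s h r q := by
      intro r
      rw [cut_apply, if_neg (by rw [Finset.mem_singleton]; exact hp)]
    rw [Finset.sum_congr rfl fun r _ => h1 r, ← Matrix.mul_apply, Matrix.one_mul, cut_apply]
    by_cases hs : e p ∈ s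
    · rw [if_pos hs, if_pos (Finset.mem_insert_of_mem hs)]
    · rw [if_neg hs, if_neg (by rw [Finset.mem_insert]; exact not_or.2 ⟨hp, hs⟩)]

/-- A matrix on one level and the identity elsewhere. -/
def emb (e : ι → ℚ) (c : ℚ) (A : Matrix {p : ι // e p = c} {p : ι // e p = c} ℂ) :
    Matrix ι ι ℂ :=
  (Matrix.fromBlocks A 0 0 (1 : Matrix {p : ι // ¬ e p = c} {p : ι // ¬ e p = c} ℂ)).submatrix
    (Equiv.sumCompl (fun p => e p = c)).symm (Equiv.sumCompl (fun p => e p = c)).symm

theorem emb_mul (c : ℚ) (A B : Matrix {p : ι // e p = c} {p : ι // e p = c} ℂ) :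
    emb e c (A * B) = emb e c A * emb e c B := by
  unfold emb
  rw [Matrix.submatrix_mul_equiv, Matrix.fromBlocks_multiply]
  simp

theorem emb_apply (c : ℚ) (A : Matrix {p : ι // e p = c} {p : ι // e p = c} ℂ) (p q : ι) :
    emb e c A p q = if h : e p = c ∧ e q = c then A ⟨p, h.1⟩ ⟨q, h.2⟩ else
      (if e p = c ∨ e q = c then 0 else (1 : Matrix ι ι ℂ) p q) := by
  have hpos : ∀ r (hr : e r = c), (Equiv.sumCompl (fun p => e p = c)).symm r = Sum.inl ⟨r, hr⟩ :=
    fun r hr => Equiv.sumCompl_symm_apply_of_pos (p := fun p => e p = c) hr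
  have hneg : ∀ r (hr : ¬ e r = c), (Equiv.sumCompl (fun p => e p = c)).symm r = Sum.inr ⟨r, hr⟩ :=
    fun r hr => Equiv.sumCompl_symm_apply_of_neg (p := fun p => e p = c) hr
  unfold emb
  rw [Matrix.submatrix_apply]
  by_cases hp : e p = c
  · by_cases hq : e q = c
    · rw [hpos p hp, hpos q hq, dif_pos ⟨hp, hq⟩]
      rfl
    · rw [hpos p hp, hneg q hq, dif_neg (fun h => hq h.2), if_pos (Or.inl hp)]
      rfl
  · by_cases hq : e q = c
    · rw [hneg p hp, hpos q hq, dif_neg (fun h => hp h.1), if_pos (Or.inr hq)]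
      rfl
    · rw [hneg p hp, hneg q hq, dif_neg (fun h => hp h.1),
        if_neg (not_or.2 ⟨hp, hq⟩), Matrix.fromBlocks_apply₂₂, Matrix.one_apply, Matrix.one_apply]
      by_cases hpq : p = q
      · rw [if_pos hpq, if_pos (Subtype.ext hpq)]
      · rw [if_neg hpq, if_neg (fun h => hpq (congrArg Subtype.val h))]

theorem emb_restrict (c : ℚ) {h : Matrix ι ι ℂ} (hh : Blk e h) :
    emb e c (h.submatrix Subtype.val Subtype.val) = cut e {c} h := by
  ext p q
  rw [emb_apply, cut_apply]
  by_cases hp : e p = c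
  · have h1 : e p ∈ ({c} : Finset ℚ) := by rw [hp]; exact Finset.mem_singleton_self _
    by_cases hq : e q = c
    · rw [dif_pos ⟨hp, hq⟩, if_pos h1]; rfl
    · rw [dif_neg (fun h => hq h.2), if_pos (Or.inl hp), if_pos h1,
        hh p q (by rw [hp]; exact Ne.symm hq)]
  · have h1 : e p ∉ ({c} : Finset ℚ) := by rw [Finset.mem_singleton]; exact hp
    by_cases hq : e q = c
    · rw [dif_neg (fun h => hp h.1), if_neg h1, if_pos (Or.inr hq), Matrix.one_apply, if_neg]
      rintro rfl
      exact hp hq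
    · rw [dif_neg (fun h => hp h.1), if_neg h1, if_neg (not_or.2 ⟨hp, hq⟩)]

theorem restrict_mul (c : ℚ) {A : Matrix ι ι ℂ} (hA : Blk e A) (B : Matrix ι ι ℂ) :
    (A * B).submatrix (Subtype.val : {p : ι // e p = c} → ι) (Subtype.val : {p : ι // e p = c} → ι)
      = A.submatrix (Subtype.val : {p : ι // e p = c} → ι)
          (Subtype.val : {p : ι // e p = c} → ι) *
        B.submatrix (Subtype.val : {p : ι // e p = c} → ι)
          (Subtype.val : {p : ι // e p = c} → ι) := by
  ext p q
  rw [Matrix.submatrix_apply, Matrix.mul_apply, Matrix.mul_apply,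
    ← Fintype.sum_subtype_add_sum_subtype (fun r => e r = c)]
  have h1 : ∑ i : {x // ¬ e x = c}, A p.1 i * B i q.1 = 0 :=
    Finset.sum_eq_zero fun i _ => by
      rw [hA p.1 i.1 (by rw [p.2]; exact fun h => i.2 h.symm), zero_mul]
  rw [h1, add_zero]
  rfl

theorem restrict_det (c : ℚ) {h : Matrix ι ι ℂ} (hh : h ∈ HGroup e) :
    (h.submatrix (Subtype.val : {p : ι // e p = c} → ι)
      (Subtype.val : {p : ι // e p = c} → ι)).det ≠ 0 := by
  have h1 : h * h⁻¹ = 1 := Matrix.mul_nonsing_inv _ ((Matrix.isUnit_iff_isUnit_det h).1 hh.1)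
  have h2 := restrict_mul c hh.2 h⁻¹
  rw [h1, Matrix.submatrix_one _ Subtype.val_injective] at h2
  have h3 := congrArg Matrix.det h2
  rw [Matrix.det_one, Matrix.det_mul] at h3
  exact left_ne_zero_of_mul (h3 ▸ one_ne_zero)

theorem emb_det (c : ℚ) (A : Matrix {p : ι // e p = c} {p : ι // e p = c} ℂ) :
    (emb e c A).det = A.det := by
  unfold emb
  rw [Matrix.det_submatrix_equiv_self, Matrix.det_fromBlocks_zero₂₁, Matrix.det_one, mul_one]

theorem emb_mem (c : ℚ) {A : Matrix {p : ι // e p = c} {p : ι // e p = c} ℂ} (hA : A.det ≠ 0) :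
    emb e c A ∈ HGroup e := by
  refine ⟨?_, fun p q hpq => ?_⟩
  · rw [Matrix.isUnit_iff_isUnit_det, emb_det]
    exact isUnit_iff_ne_zero.2 hA
  · rw [emb_apply]
    by_cases hp : e p = c
    · rw [dif_neg (fun h => hpq (h.1.trans h.2.symm)), if_pos (Or.inl hp)]
    · rw [dif_neg (fun h => hp h.1)]
      by_cases hq : e q = c
      · rw [if_pos (Or.inr hq)]
      · rw [if_neg (not_or.2 ⟨hp, hq⟩), Matrix.one_apply, if_neg (fun h => hpq (by rw [h]))]

/-- Induction on one level. -/
theorem level_induction (P : Matrix ι ι ℂ → Prop)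
    (hdiag : ∀ D : ι → ℂ, (∀ i, D i ≠ 0) → P (Matrix.diagonal D))
    (htrans : ∀ p q, p ≠ q → e p = e q → ∀ c : ℂ, P (Matrix.transvection p q c))
    (hmul : ∀ A B, A ∈ HGroup e → B ∈ HGroup e → P A → P B → P (A * B))
    (c : ℚ) (A : Matrix {p : ι // e p = c} {p : ι // e p = c} ℂ) (hA : A.det ≠ 0) :
    P (emb e c A) := by
  refine Matrix.diagonal_transvection_induction_of_det_ne_zero (fun A => P (emb e c A)) A hA
    (fun D hD => ?_) (fun t => ?_) (fun A B hA hB h1 h2 => ?_)
  · have h1 : emb e c (Matrix.diagonal D) =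
        Matrix.diagonal (fun p => if h : e p = c then D ⟨p, h⟩ else 1) := by
      ext p q
      rw [emb_apply, Matrix.diagonal_apply]
      by_cases hp : e p = c
      · by_cases hq : e q = c
        · rw [dif_pos ⟨hp, hq⟩, Matrix.diagonal_apply]
          by_cases hpq : p = q
          · rw [if_pos (Subtype.ext hpq), if_pos hpq, dif_pos hp]
          · rw [if_neg (fun h => hpq (congrArg Subtype.val h)), if_neg hpq]
        · rw [dif_neg (fun h => hq h.2), if_pos (Or.inl hp), if_neg (fun h => hq (by rw [← h, hp]))]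
      · rw [dif_neg (fun h => hp h.1)]
        by_cases hq : e q = c
        · rw [if_pos (Or.inr hq), if_neg (fun h => hp (by rw [h, hq]))]
        · rw [if_neg (not_or.2 ⟨hp, hq⟩), Matrix.one_apply]
          by_cases hpq : p = q
          · rw [if_pos hpq, if_pos hpq, dif_neg hp]
          · rw [if_neg hpq, if_neg hpq]
    rw [h1]
    refine hdiag _ fun p => ?_
    rw [Matrix.det_diagonal] at hD
    by_cases hp : e p = c
    · rw [dif_pos hp]
      exact Finset.prod_ne_zero_iff.1 hD _ (Finset.mem_univ _)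
    · rw [dif_neg hp]
      exact one_ne_zero
  · have h1 : emb e c t.toMatrix = Matrix.transvection t.i.1 t.j.1 t.c := by
      ext p q
      rw [emb_apply, Matrix.TransvectionStruct.toMatrix, Matrix.transvection, Matrix.transvection,
        Matrix.add_apply]
      by_cases hp : e p = c
      · by_cases hq : e q = c
        · rw [dif_pos ⟨hp, hq⟩, Matrix.add_apply]
          congr 1
          · rw [Matrix.one_apply, Matrix.one_apply]
            by_cases hpq : p = q
            · rw [if_pos (Subtype.ext hpq), if_pos hpq]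
            · rw [if_neg (fun h => hpq (congrArg Subtype.val h)), if_neg hpq]
          · rw [Matrix.single_apply, Matrix.single_apply]
            by_cases h : t.i.1 = p ∧ t.j.1 = q
            · rw [if_pos ⟨Subtype.ext h.1, Subtype.ext h.2⟩, if_pos h]
            · rw [if_neg (fun h' => h ⟨congrArg Subtype.val h'.1, congrArg Subtype.val h'.2⟩),
                if_neg h]
        · rw [dif_neg (fun h => hq h.2), if_pos (Or.inl hp), Matrix.one_apply,
            if_neg (fun h => hq (by rw [← h, hp])), Matrix.single_apply,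
            if_neg (fun h => hq (by rw [← h.2, t.j.2])), add_zero]
      · have h2 : (Matrix.single t.i.1 t.j.1 t.c : Matrix ι ι ℂ) p q = 0 := by
          rw [Matrix.single_apply, if_neg]
          rintro ⟨h, -⟩
          exact hp (by rw [← h, t.i.2])
        rw [dif_neg (fun h => hp h.1), h2, add_zero]
        by_cases hq : e q = c
        · rw [if_pos (Or.inr hq), Matrix.one_apply, if_neg]
          rintro rfl
          exact hp hq
        · rw [if_neg (not_or.2 ⟨hp, hq⟩)]
    rw [h1]
    exact htrans _ _ (fun h => t.hij (Subtype.ext h)) (t.i.2.trans t.j.2.symm) _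
  · rw [emb_mul]
    exact hmul _ _ (emb_mem c hA) (emb_mem c hB) h1 h2

theorem cut_induction (P : Matrix ι ι ℂ → Prop)
    (hdiag : ∀ D : ι → ℂ, (∀ i, D i ≠ 0) → P (Matrix.diagonal D))
    (htrans : ∀ p q, p ≠ q → e p = e q → ∀ c : ℂ, P (Matrix.transvection p q c))
    (hmul : ∀ A B, A ∈ HGroup e → B ∈ HGroup e → P A → P B → P (A * B))
    {h : Matrix ι ι ℂ} (hh : h ∈ HGroup e) (s : Finset ℚ) : P (cut e s h) := by
  induction s using Finset.induction_on with
  | empty =>
    have h1 : cut e ∅ h = Matrix.diagonal (fun _ => 1) := by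
      ext p q
      rw [cut_apply, if_neg (Finset.notMem_empty _), Matrix.diagonal_one]
    rw [h1]
    exact hdiag _ fun _ => one_ne_zero
  | insert c s hc ih =>
    rw [cut_insert s c hc hh.2]
    refine hmul _ _ (cut_mem _ hh) (cut_mem _ hh) ?_ ih
    rw [← emb_restrict c hh.2]
    exact level_induction P hdiag htrans hmul c _ (restrict_det c hh)

end ind

end A337

theorem hgroup_induction {ι : Type} [Fintype ι] [DecidableEq ι] (e : ι → ℚ)
    (P : Matrix ι ι ℂ → Prop)
    (hdiag : ∀ D : ι → ℂ, (∀ i, D i ≠ 0) → P (Matrix.diagonal D))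
    (htrans : ∀ p q, p ≠ q → e p = e q → ∀ c : ℂ, P (Matrix.transvection p q c))
    (hmul : ∀ A B, A ∈ HGroup e → B ∈ HGroup e → P A → P B → P (A * B))
    (h : Matrix ι ι ℂ) (hh : h ∈ HGroup e) : P h := by
  have h1 := A337.cut_induction P hdiag htrans hmul hh (Finset.univ.image e)
  have h2 : A337.cut e (Finset.univ.image e) h = h := by
    ext p q
    rw [A337.cut_apply, if_pos (Finset.mem_image_of_mem e (Finset.mem_univ p))]
  rwa [h2] at h1

namespace A337

section lexp

variable {L : Type} [AddCommGroup L] [Module ℂ L]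

theorem pow_zero_of_le {T : Module.End ℂ L} {u : L} {k i : ℕ} (hk : (T ^ k) u = 0) (hi : k ≤ i) :
    (T ^ i) u = 0 := by
  obtain ⟨j, rfl⟩ := Nat.exists_eq_add_of_le hi
  rw [add_comm, pow_add, Module.End.mul_apply, hk, map_zero]

theorem fin_supp {T : Module.End ℂ L} (hT : ∀ u, ∃ k : ℕ, (T ^ k) u = 0) (t : ℂ) (u : L) :
    (Function.support fun i : ℕ => (t ^ i / (i.factorial : ℂ)) • (T ^ i) u).Finite := by
  obtain ⟨k, hk⟩ := hT u
  refine (Finset.range k).finite_toSet.subset fun i hi => ?_
  rw [Finset.mem_coe, Finset.mem_range]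
  by_contra h
  exact hi (by simp only [pow_zero_of_le hk (not_lt.1 h), smul_zero])

/-- The exponential of a locally nilpotent operator. -/
noncomputable def lexp (T : Module.End ℂ L) (hT : ∀ u, ∃ k : ℕ, (T ^ k) u = 0) (t : ℂ) :
    Module.End ℂ L where
  toFun u := ∑ᶠ i : ℕ, (t ^ i / (i.factorial : ℂ)) • (T ^ i) u
  map_add' u v := by
    rw [← finsum_add_distrib (fin_supp hT t u) (fin_supp hT t v)]
    refine finsum_congr fun i => ?_
    rw [map_add, smul_add]
  map_smul' c u := by
    rw [RingHom.id_apply, smul_finsum' c (fin_supp hT t u)]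
    refine finsum_congr fun i => ?_
    rw [map_smul, smul_comm]

theorem lexp_apply {T : Module.End ℂ L} (hT : ∀ u, ∃ k : ℕ, (T ^ k) u = 0) (t : ℂ) {u : L} {N : ℕ}
    (hN : (T ^ N) u = 0) :
    lexp T hT t u = ∑ i ∈ Finset.range N, (t ^ i / (i.factorial : ℂ)) • (T ^ i) u := by
  refine finsum_eq_sum_of_support_subset _ fun i hi => ?_
  rw [Finset.mem_coe, Finset.mem_range]
  by_contra h
  exact hi (by simp only [pow_zero_of_le hN (not_lt.1 h), smul_zero])

theorem pow_comm {T x δ : Module.End ℂ L} (hx : T * x = x * T + δ) (hδ : T * δ = δ * T) (n : ℕ) :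
    T ^ (n + 1) * x = x * T ^ (n + 1) + ((n + 1 : ℕ) : ℂ) • (δ * T ^ n) := by
  have hδn : ∀ n : ℕ, T ^ n * δ = δ * T ^ n := by
    intro n
    induction n with
    | zero => rw [pow_zero, one_mul, mul_one]
    | succ n ih => rw [pow_succ, mul_assoc, hδ, ← mul_assoc, ih, mul_assoc]
  induction n with
  | zero => rw [zero_add, pow_one, pow_zero, mul_one, Nat.cast_one, one_smul, hx]
  | succ n ih =>
    rw [pow_succ T (n + 1), mul_assoc, hx, mul_add, ← mul_assoc, ih, add_mul, hδn, mul_assoc,
      smul_mul_assoc, mul_assoc, add_assoc]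
    congr 1
    rw [← pow_succ]
    push_cast
    rw [add_smul (((n : ℂ) + 1)) 1, one_smul]

theorem lexp_rel {T x δ : Module.End ℂ L} (hT : ∀ u, ∃ k : ℕ, (T ^ k) u = 0) (t : ℂ)
    (hx : T * x = x * T + δ) (hδ : T * δ = δ * T) :
    lexp T hT t * x = (x + t • δ) * lexp T hT t := by
  refine LinearMap.ext fun u => ?_
  obtain ⟨N, hN⟩ := hT u
  rw [Module.End.mul_apply, Module.End.mul_apply]
  have h1 : ∀ n, (T ^ (n + 1)) (x u) = x ((T ^ (n + 1)) u) +
      ((n + 1 : ℕ) : ℂ) • δ ((T ^ n) u) := fun n => by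
    have := congrArg (fun F : Module.End ℂ L => F u) (pow_comm hx hδ n)
    simpa only [Module.End.mul_apply, LinearMap.add_apply, LinearMap.smul_apply] using this
  have h2 : (T ^ (N + 1)) (x u) = 0 := by
    rw [h1, pow_zero_of_le hN (Nat.le_succ N), hN, map_zero, map_zero, smul_zero, add_zero]
  rw [lexp_apply hT t h2, LinearMap.add_apply, LinearMap.smul_apply]
  conv_rhs => rw [lexp_apply hT t (pow_zero_of_le hN (Nat.le_succ N))]
  have h3 : ∑ i ∈ Finset.range (N + 1), (t ^ i / (i.factorial : ℂ)) • (T ^ i) u =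
      ∑ i ∈ Finset.range N, (t ^ i / (i.factorial : ℂ)) • (T ^ i) u := by
    rw [Finset.sum_range_succ, hN, smul_zero, add_zero]
  have h4 : δ (∑ i ∈ Finset.range (N + 1), (t ^ i / (i.factorial : ℂ)) • (T ^ i) u) =
      ∑ i ∈ Finset.range N, (t ^ i / (i.factorial : ℂ)) • δ ((T ^ i) u) := by
    rw [h3, map_sum]
    exact Finset.sum_congr rfl fun i _ => map_smul _ _ _
  rw [h4, map_sum, Finset.sum_range_succ', Finset.sum_range_succ', Finset.smul_sum]
  simp only [h1, smul_add, map_smul, Finset.sum_add_distrib, pow_zero, Module.End.one_apply]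
  have h5 : ∀ i : ℕ, (t ^ (i + 1) / ((i + 1).factorial : ℂ)) • ((i + 1 : ℕ) : ℂ) • δ ((T ^ i) u) =
      t • (t ^ i / (i.factorial : ℂ)) • δ ((T ^ i) u) := by
    intro i
    rw [smul_smul, smul_smul]
    congr 1
    rw [Nat.factorial_succ]
    have h6 : ((i + 1 : ℕ) : ℂ) ≠ 0 := Nat.cast_ne_zero.2 (Nat.succ_ne_zero i)
    have h7 : ((i.factorial : ℕ) : ℂ) ≠ 0 := Nat.cast_ne_zero.2 (Nat.factorial_ne_zero i)
    rw [Nat.cast_mul]
    field_simp
    ring
  rw [Finset.sum_congr rfl fun i _ => h5 i]
  abel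

theorem lexp_inj {T : Module.End ℂ L} (hT : ∀ u, ∃ k : ℕ, (T ^ k) u = 0) (t : ℂ) (v : L)
    (hv : lexp T hT t v = 0) : v = 0 := by
  classical
  by_contra hne
  have hk := Nat.find_spec (hT v)
  set k := Nat.find (hT v) with hkdef
  have hk0 : k ≠ 0 := by
    intro h0
    rw [h0, pow_zero] at hk
    exact hne hk
  obtain ⟨m, hm⟩ := Nat.exists_eq_succ_of_ne_zero hk0
  have hlt : (T ^ m) v ≠ 0 := Nat.find_min (hT v) (by rw [← hkdef, hm]; exact Nat.lt_succ_self m)
  have h1 := lexp_rel (x := T ^ m) (δ := 0) hT t (by rw [add_zero]; exact (Commute.self_pow T m).eq)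
    (by rw [mul_zero, zero_mul])
  have h2 := congrArg (fun F : Module.End ℂ L => F v) h1
  simp only [smul_zero, add_zero, Module.End.mul_apply] at h2
  rw [hv, map_zero] at h2
  have h3 : (T ^ 1) ((T ^ m) v) = 0 := by
    rw [← Module.End.mul_apply, ← pow_add, add_comm, ← Nat.succ_eq_add_one, ← hm]
    exact hk
  rw [lexp_apply hT t h3] at h2
  simp at h2
  exact hlt h2

end lexp

section eig

variable {L : Type} [AddCommGroup L] [Module ℂ L]

theorem eig_top {S : Module.End ℂ L} (hS : ∀ u : L, ∃ s : Finset ℤ,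
    Polynomial.aeval S (∏ j ∈ s, (Polynomial.X - Polynomial.C (j : ℂ))) u = 0) :
    ⨆ μ : ℂ, S.eigenspace μ = ⊤ := by
  have h1 : ∀ s : Finset ℤ, LinearMap.ker
      (Polynomial.aeval S (∏ j ∈ s, (Polynomial.X - Polynomial.C (j : ℂ)))) ≤
      ⨆ μ : ℂ, S.eigenspace μ := by
    intro s
    induction s using Finset.induction_on with
    | empty =>
      rw [Finset.prod_empty, map_one]
      intro u hu
      have : u = 0 := hu
      rw [this]
      exact Submodule.zero_mem _
    | insert a s ha ih =>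
      rw [Finset.prod_insert ha, ← Polynomial.sup_ker_aeval_eq_ker_aeval_mul_of_coprime]
      · refine sup_le ?_ ih
        refine le_trans ?_ (le_iSup _ (a : ℂ))
        intro u hu
        rw [Module.End.mem_eigenspace_iff]
        have h2 : Polynomial.aeval S (Polynomial.X - Polynomial.C (a : ℂ)) u = 0 := hu
        rw [map_sub, Polynomial.aeval_X, Polynomial.aeval_C, LinearMap.sub_apply,
          Module.algebraMap_end_apply, sub_eq_zero] at h2
        exact h2
      · refine IsCoprime.prod_right fun i hi => ?_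
        refine Polynomial.isCoprime_X_sub_C_of_isUnit_sub ?_
        rw [isUnit_iff_ne_zero, sub_ne_zero]
        intro h
        exact ha (by rw [Int.cast_injective h]; exact hi)
  rw [eq_top_iff]
  intro u _
  obtain ⟨s, hs⟩ := hS u
  exact h1 s hs

theorem eq_of_eig {S F G : Module.End ℂ L} (htop : ⨆ μ : ℂ, S.eigenspace μ = ⊤)
    (h : ∀ μ, ∀ v ∈ S.eigenspace μ, F v = G v) : F = G := by
  refine LinearMap.ext fun v => ?_
  have h1 : (⨆ μ : ℂ, S.eigenspace μ) ≤ LinearMap.eqLocus F G := iSup_le fun μ v hv => h μ v hv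
  rw [htop] at h1
  exact h1 (Submodule.mem_top (x := v))

theorem exists_scal {S : Module.End ℂ L} (htop : ⨆ μ : ℂ, S.eigenspace μ = ⊤) (c : ℂ → ℂ) :
    ∃ E : Module.End ℂ L, ∀ μ, ∀ v ∈ S.eigenspace μ, E v = c μ • v := by
  classical
  have hint : DirectSum.IsInternal (fun μ : ℂ => S.eigenspace μ) :=
    DirectSum.isInternal_submodule_of_iSupIndep_of_iSup_eq_top
      (Module.End.eigenspaces_iSupIndep S) htop
  let dec := LinearEquiv.ofBijective (DirectSum.coeLinearMap (fun μ : ℂ => S.eigenspace μ)) hint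
  refine ⟨(DirectSum.toModule ℂ ℂ L (fun μ => c μ • (S.eigenspace μ).subtype)) ∘ₗ
    dec.symm.toLinearMap, fun μ v hv => ?_⟩
  have h1 : dec.symm v = DirectSum.lof ℂ ℂ (fun μ : ℂ => S.eigenspace μ) μ ⟨v, hv⟩ := by
    rw [LinearEquiv.symm_apply_eq]
    exact (DirectSum.coeLinearMap_lof (fun μ : ℂ => S.eigenspace μ) μ ⟨v, hv⟩).symm
  rw [LinearMap.comp_apply]
  change DirectSum.toModule ℂ ℂ L (fun μ => c μ • (S.eigenspace μ).subtype) (dec.symm v) = _
  rw [h1, DirectSum.toModule_lof]
  rfl

end eig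

section twist

variable {J : Type} [DecidableEq J] {L : Type} [AddCommGroup L] [Module ℂ L]

theorem supp_twist (W : WeylModule J L) (φ : MvPolynomial J ℂ →ₐ[ℂ] MvPolynomial J ℂ)
    (E : Module.End ℂ L) (hE : ∀ v, E v = 0 → v = 0)
    (hφ : ∀ j, E * W.fn (φ (X j)) = W.x j * E) {a b : J → ℂ}
    (hab : ∀ j, eval a (φ (X j)) = b j) (ha : a ∈ W.supp) : b ∈ W.supp := by
  intro f hf
  have h1 : ∀ h : MvPolynomial J ℂ, E * W.fn (φ h) = W.fn h * E := by
    intro h
    induction h using MvPolynomial.induction_on with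
    | C c =>
      have h2 : φ (C c) = C c := by
        rw [← MvPolynomial.algebraMap_eq, AlgHom.commutes]
      rw [h2, WeylModule.fn_C]
      exact (Algebra.commutes c E).symm
    | add p q hp hq => rw [map_add, map_add, mul_add, hp, hq, map_add, add_mul]
    | mul_X p j hp =>
      rw [map_mul, map_mul, ← mul_assoc, hp, mul_assoc, hφ, ← mul_assoc, map_mul,
        WeylModule.fn_X]
  have h2 : ∀ h : MvPolynomial J ℂ, eval a (φ h) = eval b h := by
    intro h
    induction h using MvPolynomial.induction_on with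
    | C c =>
      have h2 : φ (C c) = C c := by
        rw [← MvPolynomial.algebraMap_eq, AlgHom.commutes]
      rw [h2, eval_C, eval_C]
    | add p q hp hq => rw [map_add, map_add, hp, hq, map_add]
    | mul_X p j hp => rw [map_mul, map_mul, hp, hab, map_mul, eval_X]
  rw [← h2]
  refine ha _ fun u => ?_
  obtain ⟨k, hk⟩ := hf (E u)
  refine ⟨k, hE _ ?_⟩
  have h3 := congrArg (fun F : Module.End ℂ L => F u) (h1 (f ^ k))
  simp only [map_pow, Module.End.mul_apply] at h3
  rw [h3, hk]

end twist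

section fin

variable {ι : Type} [Fintype ι] [DecidableEq ι] {e : ι → ℚ} {L : Type} [AddCommGroup L]
  [Module ℂ L]

/-- The coordinate functions of `gl_n`, restricted to the Vogan variety. -/
noncomputable def Xv (e : ι → ℚ) (r s : ι) : MvPolynomial (Idx e) ℂ :=
  if h : e r = e s + 1 then X ⟨(r, s), h⟩ else 0

theorem fn_Xv (W : WeylModule (Idx e) L) (r s : ι) : W.fn (Xv e r s) = xop W r s := by
  unfold Xv xop
  by_cases h : e r = e s + 1
  · rw [dif_pos h, dif_pos h, WeylModule.fn_X]
  · rw [dif_neg h, dif_neg h, map_zero]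

theorem eval_Xv {x : Matrix ι ι ℂ} (hx : x ∈ Vogan e) (r s : ι) :
    eval (coord e x) (Xv e r s) = x r s := by
  unfold Xv
  by_cases h : e r = e s + 1
  · rw [dif_pos h, eval_X]; rfl
  · rw [dif_neg h, map_zero, hx r s h]

theorem xop_idx (W : WeylModule (Idx e) L) (j : Idx e) : xop W j.1.1 j.1.2 = W.x j := by
  unfold xop
  rw [dif_pos j.2]

theorem conj_vogan {g x : Matrix ι ι ℂ} (hg : g ∈ HGroup e) (hx : x ∈ Vogan e) :
    g * x * g⁻¹ ∈ Vogan e := by
  intro p q hpq
  rw [Matrix.mul_apply]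
  refine Finset.sum_eq_zero fun s _ => ?_
  by_cases hs : e s = e q
  · rw [Matrix.mul_apply, Finset.sum_mul]
    refine Finset.sum_eq_zero fun r _ => ?_
    by_cases hr : e p = e r
    · rw [hx r s (by rw [← hr, hs]; exact hpq), mul_zero, zero_mul]
    · rw [hg.2 p r hr, zero_mul, zero_mul]
  · rw [hgroup_inv hg.1 hg.2 s q hs, mul_zero]

theorem transv_case (W : WeylModule (Idx e) L) (he : IsEquivariant W) {x : Matrix ι ι ℂ}
    (hx : x ∈ Vogan e) (hs : coord e x ∈ W.supp) {p q : ι} (hpq : p ≠ q) (hepq : e p = e q)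
    (c : ℂ) : coord e (transvection p q c * x * (transvection p q c)⁻¹) ∈ W.supp := by
  have hT := he.1 p q hepq hpq
  -- the derivation on coordinates
  have h0 : xop W q p = 0 := xop_zero W (by rw [hepq]; intro h; linarith)
  let δ : ι → ι → Module.End ℂ L := fun r s =>
    (if p = r then xop W q s else 0) - (if q = s then xop W r p else 0)
  have hδ : ∀ r s, vf W p q * δ r s = δ r s * vf W p q := by
    intro r s
    have h1 : vf W p q * (if p = r then xop W q s else 0) =
        (if p = r then xop W q s else 0) * vf W p q := by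
      by_cases h : p = r
      · rw [if_pos h, vf_xop W hepq, if_neg hpq]
        by_cases h2 : q = s
        · rw [if_pos h2, h0, sub_zero, add_zero]
        · rw [if_neg h2, sub_zero, add_zero]
      · rw [if_neg h, mul_zero, zero_mul]
    have h2 : vf W p q * (if q = s then xop W r p else 0) =
        (if q = s then xop W r p else 0) * vf W p q := by
      by_cases h : q = s
      · rw [if_pos h, vf_xop W hepq, if_neg (Ne.symm hpq)]
        by_cases h2 : p = r
        · rw [if_pos h2, h0, sub_zero, add_zero]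
        · rw [if_neg h2, sub_zero, add_zero]
      · rw [if_neg h, mul_zero, zero_mul]
    rw [show δ r s = _ - _ from rfl, mul_sub, sub_mul, h1, h2]
  let φ : MvPolynomial (Idx e) ℂ →ₐ[ℂ] MvPolynomial (Idx e) ℂ :=
    aeval fun j => X j + C c * ((if p = j.1.1 then Xv e q j.1.2 else 0) -
      (if q = j.1.2 then Xv e j.1.1 p else 0))
  have hφ : ∀ j, φ (X j) = X j + C c * ((if p = j.1.1 then Xv e q j.1.2 else 0) -
      (if q = j.1.2 then Xv e j.1.1 p else 0)) := fun j => aeval_X _ j
  refine supp_twist W φ (lexp (vf W p q) hT (-c)) (lexp_inj hT (-c)) (fun j => ?_) (fun j => ?_) hs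
  · have h1 : W.fn (φ (X j)) = xop W j.1.1 j.1.2 + c • δ j.1.1 j.1.2 := by
      rw [hφ, map_add, WeylModule.fn_X, xop_idx, map_mul, WeylModule.fn_C, map_sub]
      have h2 : W.fn (if p = j.1.1 then Xv e q j.1.2 else 0) =
          if p = j.1.1 then xop W q j.1.2 else 0 := by
        split_ifs
        · exact fn_Xv W _ _
        · exact map_zero _
      have h3 : W.fn (if q = j.1.2 then Xv e j.1.1 p else 0) =
          if q = j.1.2 then xop W j.1.1 p else 0 := by
        split_ifs
        · exact fn_Xv W _ _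
        · exact map_zero _
      rw [h2, h3, Algebra.smul_def]
    have h4 := lexp_rel hT (-c) (vf_xop W hepq j.1.1 j.1.2) (hδ j.1.1 j.1.2)
    have h5 := lexp_rel (δ := 0) hT (-c) (x := δ j.1.1 j.1.2)
      (by rw [add_zero]; exact hδ j.1.1 j.1.2) (by rw [mul_zero, zero_mul])
    rw [h1, mul_add, h4, mul_smul_comm, h5, ← xop_idx W j]
    change (xop W j.1.1 j.1.2 + -c • δ j.1.1 j.1.2) * _ + _ = _
    rw [smul_zero, add_zero, add_mul, smul_mul_assoc, neg_smul]
    abel
  · rw [hφ, map_add, map_mul, map_sub, eval_C, eval_X]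
    have h2 : eval (coord e x) (if p = j.1.1 then Xv e q j.1.2 else 0) =
        if p = j.1.1 then x q j.1.2 else 0 := by
      split_ifs
      · exact eval_Xv hx _ _
      · exact map_zero _
    have h3 : eval (coord e x) (if q = j.1.2 then Xv e j.1.1 p else 0) =
        if q = j.1.2 then x j.1.1 p else 0 := by
      split_ifs
      · exact eval_Xv hx _ _
      · exact map_zero _
    rw [h2, h3]
    have hinv : (transvection p q c)⁻¹ = transvection p q (-c) := by
      refine Matrix.inv_eq_right_inv ?_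
      rw [Matrix.transvection_mul_transvection_same p q hpq, add_neg_cancel,
        Matrix.transvection_zero]
    have hqp : x q p = 0 := hx q p (by rw [hepq]; intro h; linarith)
    have h6 : ∀ r s, (transvection p q c * x * (transvection p q c)⁻¹) r s =
        x r s + c * ((if p = r then x q s else 0) - (if q = s then x r p else 0)) := by
      intro r s
      rw [hinv]
      by_cases hsq : q = s
      · subst hsq
        rw [Matrix.mul_transvection_apply_same, if_pos rfl]
        by_cases hrp : p = r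
        · subst hrp
          rw [Matrix.transvection_mul_apply_same, Matrix.transvection_mul_apply_same, hqp,
            if_pos rfl]
          ring
        · rw [Matrix.transvection_mul_apply_of_ne _ _ _ _ (Ne.symm hrp),
            Matrix.transvection_mul_apply_of_ne _ _ _ _ (Ne.symm hrp), if_neg hrp]
          ring
      · rw [Matrix.mul_transvection_apply_of_ne _ _ _ _ (Ne.symm hsq), if_neg hsq]
        by_cases hrp : p = r
        · subst hrp
          rw [Matrix.transvection_mul_apply_same, if_pos rfl]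
          ring
        · rw [Matrix.transvection_mul_apply_of_ne _ _ _ _ (Ne.symm hrp), if_neg hrp]
          ring
    exact (h6 j.1.1 j.1.2).symm

/-- One diagonal entry. -/
def oneD (p : ι) (d : ℂ) : ι → ℂ := fun i => if i = p then d else 1

theorem diag_inv {D : ι → ℂ} (hD : ∀ i, D i ≠ 0) :
    (Matrix.diagonal D)⁻¹ = Matrix.diagonal (fun i => (D i)⁻¹) := by
  refine Matrix.inv_eq_right_inv ?_
  rw [Matrix.diagonal_mul_diagonal, ← Matrix.diagonal_one]
  congr 1
  funext i
  exact mul_inv_cancel₀ (hD i)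

theorem oneD_ne {p : ι} {d : ℂ} (hd : d ≠ 0) (i : ι) : oneD p d i ≠ 0 := by
  unfold oneD
  split_ifs
  · exact hd
  · exact one_ne_zero

theorem diag_case (W : WeylModule (Idx e) L) (he : IsEquivariant W) {x : Matrix ι ι ℂ}
    (hx : x ∈ Vogan e) (hs : coord e x ∈ W.supp) (p : ι) {d : ℂ} (hd : d ≠ 0) :
    coord e (Matrix.diagonal (oneD p d) * x * (Matrix.diagonal (oneD p d))⁻¹) ∈ W.supp := by
  have htop := eig_top (he.2 p)
  obtain ⟨E, hE⟩ := exists_scal htop (fun μ => d ^ (-⌊μ.re⌋))
  obtain ⟨E', hE'⟩ := exists_scal htop (fun μ => d ^ ⌊μ.re⌋)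
  have hEE : E' * E = 1 := by
    refine eq_of_eig htop fun μ v hv => ?_
    rw [Module.End.mul_apply, hE μ v hv, map_smul, hE' μ v hv, smul_smul, ← zpow_add₀ hd,
      neg_add_cancel, zpow_zero, one_smul, Module.End.one_apply]
  have hinj : ∀ v, E v = 0 → v = 0 := by
    intro v hv
    have h1 := congrArg (fun F : Module.End ℂ L => F v) hEE
    simp only [Module.End.mul_apply, hv, map_zero, Module.End.one_apply] at h1
    exact h1.symm
  let a : ι → ι → ℤ := fun r s => (if p = r then 1 else 0) - (if p = s then 1 else 0)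
  let φ : MvPolynomial (Idx e) ℂ →ₐ[ℂ] MvPolynomial (Idx e) ℂ :=
    aeval fun j => C (d ^ a j.1.1 j.1.2) * X j
  have hφ : ∀ j, φ (X j) = C (d ^ a j.1.1 j.1.2) * X j := fun j => aeval_X _ j
  refine supp_twist W φ E hinj (fun j => ?_) (fun j => ?_) hs
  · have hcom : vf W p p * W.x j = W.x j * vf W p p + (a j.1.1 j.1.2 : ℂ) • W.x j := by
      rw [← xop_idx W j, vf_xop W rfl]
      congr 1
      change _ = (((if p = j.1.1 then (1 : ℤ) else 0) - (if p = j.1.2 then 1 else 0) : ℤ) : ℂ) • _
      by_cases h1 : p = j.1.1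
      · by_cases h2 : p = j.1.2
        · exfalso
          have := j.2
          rw [← h1, ← h2] at this
          linarith
        · rw [if_pos h1, if_neg h2, if_pos h1, if_neg h2, sub_zero, sub_zero, Int.cast_one,
            one_smul, h1]
      · by_cases h2 : p = j.1.2
        · rw [if_neg h1, if_pos h2, if_neg h1, if_pos h2, zero_sub, zero_sub, Int.cast_neg,
            Int.cast_one, neg_smul, one_smul, h2]
        · rw [if_neg h1, if_neg h2, if_neg h1, if_neg h2, sub_zero, sub_zero, Int.cast_zero,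
            zero_smul]
    refine eq_of_eig htop fun μ v hv => ?_
    have hv' : W.x j v ∈ (vf W p p).eigenspace (μ + (a j.1.1 j.1.2 : ℂ)) := by
      rw [Module.End.mem_eigenspace_iff] at hv ⊢
      have h1 := congrArg (fun F : Module.End ℂ L => F v) hcom
      simp only [Module.End.mul_apply, LinearMap.add_apply, LinearMap.smul_apply] at h1
      rw [h1, hv, map_smul, add_smul]
    rw [Module.End.mul_apply, Module.End.mul_apply, hφ, map_mul, WeylModule.fn_C, WeylModule.fn_X,
      Module.End.mul_apply, Module.algebraMap_end_apply, map_smul, hE _ _ hv', hE μ v hv, map_smul,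
      smul_smul]
    congr 1
    have h2 : (μ + (a j.1.1 j.1.2 : ℂ)).re = μ.re + ((a j.1.1 j.1.2 : ℤ) : ℝ) := by
      rw [Complex.add_re, Complex.intCast_re]
    rw [h2, Int.floor_add_intCast, ← zpow_add₀ hd]
    congr 1
    ring
  · rw [hφ, map_mul, eval_C, eval_X, diag_inv (oneD_ne hd)]
    have h0 : coord e (Matrix.diagonal (oneD p d) * x *
        Matrix.diagonal (fun i => (oneD p d i)⁻¹)) j =
        oneD p d j.1.1 * x j.1.1 j.1.2 * (oneD p d j.1.2)⁻¹ := by
      change (Matrix.diagonal (oneD p d) * x *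
        Matrix.diagonal (fun i => (oneD p d i)⁻¹) : Matrix ι ι ℂ) j.1.1 j.1.2 = _
      rw [Matrix.mul_diagonal, Matrix.diagonal_mul]
    rw [h0]
    change d ^ ((if p = j.1.1 then (1 : ℤ) else 0) - (if p = j.1.2 then 1 else 0)) *
      x j.1.1 j.1.2 = _
    unfold oneD
    rw [zpow_sub₀ hd]
    have h1 : d ^ (if p = j.1.1 then (1 : ℤ) else 0) = if j.1.1 = p then d else 1 := by
      by_cases h : p = j.1.1
      · rw [if_pos h, if_pos h.symm, zpow_one]
      · rw [if_neg h, if_neg (Ne.symm h), zpow_zero]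
    have h2 : d ^ (if p = j.1.2 then (1 : ℤ) else 0) = if j.1.2 = p then d else 1 := by
      by_cases h : p = j.1.2
      · rw [if_pos h, if_pos h.symm, zpow_one]
      · rw [if_neg h, if_neg (Ne.symm h), zpow_zero]
    rw [h1, h2, div_eq_mul_inv]
    ring

theorem diag_mem {D : ι → ℂ} (hD : ∀ i, D i ≠ 0) : Matrix.diagonal D ∈ HGroup e := by
  refine ⟨?_, fun p q hpq => ?_⟩
  · rw [Matrix.isUnit_iff_isUnit_det, Matrix.det_diagonal]
    exact isUnit_iff_ne_zero.2 (Finset.prod_ne_zero_iff.2 fun i _ => hD i)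
  · rw [Matrix.diagonal_apply, if_neg]
    rintro rfl
    exact hpq rfl

/-- All diagonal matrices. -/
theorem diag_all (P : Matrix ι ι ℂ → Prop)
    (h1 : ∀ p, ∀ d : ℂ, d ≠ 0 → P (Matrix.diagonal (oneD p d)))
    (h0 : P 1)
    (hmul : ∀ A B, A ∈ HGroup e → B ∈ HGroup e → P A → P B → P (A * B))
    (D : ι → ℂ) (hD : ∀ i, D i ≠ 0) : P (Matrix.diagonal D) := by
  have key : ∀ s : Finset ι, P (Matrix.diagonal (fun i => if i ∈ s then D i else 1)) := by
    intro s
    induction s using Finset.induction_on with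
    | empty =>
      have : Matrix.diagonal (fun i => if i ∈ (∅ : Finset ι) then D i else 1) =
          (1 : Matrix ι ι ℂ) := by
        rw [← Matrix.diagonal_one]
        congr 1
      rw [this]
      exact h0
    | insert a s ha ih =>
      have : Matrix.diagonal (fun i => if i ∈ insert a s then D i else 1) =
          Matrix.diagonal (oneD a (D a)) * Matrix.diagonal (fun i => if i ∈ s then D i else 1) := by
        rw [Matrix.diagonal_mul_diagonal]
        congr 1
        funext i
        unfold oneD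
        by_cases hi : i = a
        · subst hi
          rw [if_pos (Finset.mem_insert_self _ _), if_pos rfl, if_neg ha, mul_one]
        · rw [if_neg hi, one_mul]
          by_cases his : i ∈ s
          · rw [if_pos his, if_pos (Finset.mem_insert_of_mem his)]
          · rw [if_neg his, if_neg (by rw [Finset.mem_insert]; exact not_or.2 ⟨hi, his⟩)]
      rw [this]
      refine hmul _ _ (diag_mem (oneD_ne (hD a))) (diag_mem fun i => ?_) (h1 a _ (hD a)) ih
      split_ifs
      · exact hD i
      · exact one_ne_zero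
  have h2 := key Finset.univ
  simpa only [Finset.mem_univ, if_true] using h2

end fin

end A337

theorem supp_stable {ι : Type} [Fintype ι] [DecidableEq ι] {e : ι → ℚ} {L : Type}
    [AddCommGroup L] [Module ℂ L] (W : WeylModule (Idx e) L) (he : IsEquivariant W)
    {x : Matrix ι ι ℂ} (hx : x ∈ Vogan e) (hs : coord e x ∈ W.supp) {g : Matrix ι ι ℂ}
    (hg : g ∈ HGroup e) : coord e (g * x * g⁻¹) ∈ W.supp := by
  have hmul : ∀ A B : Matrix ι ι ℂ, A ∈ HGroup e → B ∈ HGroup e →
      (∀ x ∈ Vogan e, coord e x ∈ W.supp → coord e (A * x * A⁻¹) ∈ W.supp) →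
      (∀ x ∈ Vogan e, coord e x ∈ W.supp → coord e (B * x * B⁻¹) ∈ W.supp) →
      ∀ x ∈ Vogan e, coord e x ∈ W.supp → coord e ((A * B) * x * (A * B)⁻¹) ∈ W.supp := by
    intro A B hA hB h1 h2 x hx hs
    have h3 : (A * B) * x * (A * B)⁻¹ = A * (B * x * B⁻¹) * A⁻¹ := by
      rw [Matrix.mul_inv_rev]
      simp only [Matrix.mul_assoc]
    rw [h3]
    exact h1 _ (A337.conj_vogan hB hx) (h2 x hx hs)
  refine hgroup_induction e
    (fun g => ∀ x ∈ Vogan e, coord e x ∈ W.supp → coord e (g * x * g⁻¹) ∈ W.supp)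
    (fun D hD => ?_) (fun p q hpq hepq c x hx hs => A337.transv_case W he hx hs hpq hepq c)
    hmul g hg x hx hs
  refine A337.diag_all _ (fun p d hd x hx hs => A337.diag_case W he hx hs p hd) ?_ hmul D hD
  intro x _ hs
  rw [inv_one, Matrix.one_mul, Matrix.mul_one]
  exact hs

end Pool.Agent.H495.S2
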