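import Pool.Agent.H495.Twist

/-!
# Subtask S4 of helper495 (MP_fe6ac3_nt): leading symbols of operators on a twisted module
-/

namespace Pool.Agent.H495.S4

open MvPolynomial

set_option linter.unusedSectionVars false

section

variable {J : Type} [Fintype J] [DecidableEq J] (S : J → Prop) [DecidablePred S]

theorem eul_X (i : J) : eul S (X i) = if S i then X i else 0 := by
  have h1 : eul S (X i) = ∑ j ∈ Finset.univ.filter S, (X j : MvPolynomial J ℂ) *
      pderiv (R := ℂ) j (X i) := by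
    unfold eul
    rw [← Derivation.coeFnAddMonoidHom_apply, map_sum, Finset.sum_apply]
    rfl
  rw [h1]
  have h2 : ∀ j ∈ Finset.univ.filter S, (X j : MvPolynomial J ℂ) * pderiv (R := ℂ) j (X i) =
      if i = j then X j else 0 := by
    intro j _
    rw [pderiv_X]
    by_cases h : i = j
    · subst h; simp
    · rw [Pi.single_eq_of_ne h, mul_zero, if_neg h]
  rw [Finset.sum_congr rfl h2, Finset.sum_ite_eq]
  simp

theorem eul_comm (j : J) (f : MvPolynomial J ℂ) : eul S (pderiv j f) =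
    pderiv j (eul S f) - (if S j then pderiv j f else 0) := by
  have h : ⁅eul S, (pderiv j : Derivation ℂ (MvPolynomial J ℂ) (MvPolynomial J ℂ))⁆ =
      if S j then -(pderiv j : Derivation ℂ (MvPolynomial J ℂ) (MvPolynomial J ℂ)) else 0 := by
    apply MvPolynomial.derivation_ext
    intro i
    rw [Derivation.commutator_apply, pderiv_X, eul_X]
    by_cases hij : i = j
    · subst hij
      rw [Pi.single_eq_same, Derivation.map_one_eq_zero]
      by_cases hi : S i
      · simp [hi]
      · simp [hi]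
    · rw [Pi.single_eq_of_ne hij, map_zero]
      by_cases hi : S i <;> by_cases hj : S j <;> simp [hi, hj, pderiv_X, Pi.single_eq_of_ne hij]
  have h2 := congrArg (fun D => D f) h
  rw [Derivation.commutator_apply] at h2
  by_cases hj : S j
  · rw [if_pos hj] at h2 ⊢
    rw [Derivation.neg_apply] at h2
    linear_combination h2
  · rw [if_neg hj] at h2 ⊢
    rw [Derivation.zero_apply] at h2
    linear_combination h2

theorem EE_dd (j : J) (f : KK J) : exD (eul S) (dd j f) =
    dd j (exD (eul S) f) - (if S j then dd j f else 0) := by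
  have h : ⁅exD (eul S), dd j⁆ = if S j then -dd j else 0 := by
    apply der_frac_ext
    intro r
    rw [Derivation.commutator_apply, dd_alg, exD_alg, exD_alg, dd_alg, eul_comm]
    by_cases hj : S j
    · rw [if_pos hj, if_pos hj, Derivation.neg_apply, dd_alg, map_sub]; ring
    · rw [if_neg hj, if_neg hj, sub_zero, sub_self]; rfl
  have h2 := congrArg (fun D => D f) h
  rw [Derivation.commutator_apply] at h2
  by_cases hj : S j
  · rw [if_pos hj] at h2 ⊢
    rw [Derivation.neg_apply] at h2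
    linear_combination h2
  · rw [if_neg hj] at h2 ⊢
    rw [Derivation.zero_apply] at h2
    linear_combination h2

/-- the eigenspaces of the Euler derivation -/
noncomputable def Hs (l : ℤ) : Submodule ℂ (KK J) :=
  Module.End.eigenspace (exD (eul S) : KK J →ₗ[ℂ] KK J) (l : ℂ)

theorem mem_Hs {l : ℤ} {f : KK J} : f ∈ Hs S l ↔ exD (eul S) f = (l : ℂ) • f :=
  Module.End.mem_eigenspace_iff

/-- the lower order part -/
noncomputable def Lo (l : ℤ) : Submodule ℂ (KK J) := ⨆ i : {i : ℤ // i < l}, Hs S i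

theorem Hs_le_Lo {i l : ℤ} (h : i < l) : Hs S i ≤ Lo S l :=
  le_iSup (fun i : {i : ℤ // i < l} => Hs S i) ⟨i, h⟩

theorem Lo_mono {l l' : ℤ} (h : l ≤ l') : Lo S l ≤ Lo S l' :=
  iSup_le fun i => Hs_le_Lo S (lt_of_lt_of_le i.2 h)

theorem Lo_induct {l : ℤ} {p : KK J → Prop} (h1 : ∀ i < l, ∀ f ∈ Hs S i, p f) (h0 : p 0)
    (h2 : ∀ f g, p f → p g → p (f + g)) {f : KK J} (hf : f ∈ Lo S l) : p f :=
  Submodule.iSup_induction (fun i : {i : ℤ // i < l} => Hs S i) (motive := p) hf
    (fun i x hx => h1 i i.2 x hx) h0 h2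

theorem Hs_inf_Lo {l : ℤ} {f : KK J} (h1 : f ∈ Hs S l) (h2 : f ∈ Lo S l) : f = 0 := by
  have h := (Module.End.eigenspaces_iSupIndep
    (exD (eul S) : KK J →ₗ[ℂ] KK J)).comp (Int.cast_injective (α := ℂ))
  have h3 := (Submodule.disjoint_def.1 (h l)) f h1
  refine h3 ?_
  refine (?_ : Lo S l ≤ _) h2
  refine iSup_le fun i => ?_
  exact le_iSup_of_le (i : ℤ) (le_iSup_of_le (ne_of_lt i.2) le_rfl)

theorem Hs_mul {k l : ℤ} {a f : KK J} (ha : a ∈ Hs S k) (hf : f ∈ Hs S l) :
    a * f ∈ Hs S (k + l) := by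
  rw [mem_Hs] at *
  rw [Derivation.leibniz, ha, hf, smul_eq_mul, smul_eq_mul, Int.cast_add, add_smul,
    Algebra.smul_def, Algebra.smul_def, Algebra.smul_def, Algebra.smul_def]
  ring

theorem Lo_mul {k l : ℤ} {a f : KK J} (ha : a ∈ Hs S k) (hf : f ∈ Lo S l) :
    a * f ∈ Lo S (k + l) := by
  refine Lo_induct S (p := fun f => a * f ∈ Lo S (k + l)) ?_ ?_ ?_ hf
  · intro i hi f hf
    exact Hs_le_Lo S (by omega) (Hs_mul S ha hf)
  · rw [mul_zero]; exact Submodule.zero_mem _
  · intro f g hf hg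
    rw [mul_add]; exact Submodule.add_mem _ hf hg

/-- the degree of `dd j` -/
def dg (j : J) : ℤ := if S j then -1 else 0

theorem dd_Hs {l : ℤ} {f : KK J} (j : J) (hf : f ∈ Hs S l) : dd j f ∈ Hs S (l + dg S j) := by
  rw [mem_Hs] at *
  have h1 : dd j ((l : ℂ) • f) = (l : ℂ) • dd j f := Derivation.map_smul _ _ _
  rw [EE_dd, hf, h1, dg]
  by_cases hj : S j
  · rw [if_pos hj, if_pos hj]
    push_cast
    rw [add_smul, neg_smul, one_smul]; ring
  · rw [if_neg hj, if_neg hj]
    push_cast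
    rw [sub_zero, add_zero]

theorem dd_Lo {l : ℤ} {f : KK J} (j : J) (hf : f ∈ Lo S l) : dd j f ∈ Lo S (l + dg S j) := by
  refine Lo_induct S (p := fun f => dd j f ∈ Lo S (l + dg S j)) ?_ ?_ ?_ hf
  · intro i hi f hf
    exact Hs_le_Lo S (by omega) (dd_Hs S j hf)
  · rw [map_zero]; exact Submodule.zero_mem _
  · intro f g hf hg
    rw [map_add]; exact Submodule.add_mem _ hf hg

/-- `f` is `g` up to lower order terms -/
def Asy (l : ℤ) (f g : KK J) : Prop := g ∈ Hs S l ∧ f - g ∈ Lo S l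

variable {S}

theorem Asy.add {l : ℤ} {f g f' g' : KK J} (h : Asy S l f g) (h' : Asy S l f' g') :
    Asy S l (f + f') (g + g') :=
  ⟨Submodule.add_mem _ h.1 h'.1, by
    rw [add_sub_add_comm]; exact Submodule.add_mem _ h.2 h'.2⟩

theorem Asy.zero {l : ℤ} : Asy S l (0 : KK J) 0 :=
  ⟨Submodule.zero_mem _, by rw [sub_zero]; exact Submodule.zero_mem _⟩

theorem Asy.mul {k l : ℤ} {a f g : KK J} (ha : a ∈ Hs S k) (h : Asy S l f g) :
    Asy S (l + k) (a * f) (a * g) := by
  rw [add_comm l k]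
  exact ⟨Hs_mul S ha h.1, by rw [← mul_sub]; exact Lo_mul S ha h.2⟩

theorem Asy.add_low {l : ℤ} {f g r : KK J} (h : Asy S l f g) (hr : r ∈ Lo S l) :
    Asy S l (f + r) g :=
  ⟨h.1, by rw [add_sub_right_comm]; exact Submodule.add_mem _ h.2 hr⟩

theorem Asy.low {l l' : ℤ} {f g : KK J} (h : Asy S l f g) (hl : l < l') : f ∈ Lo S l' := by
  have h1 : f = (f - g) + g := by ring
  rw [h1]
  exact Submodule.add_mem _ (Lo_mono S hl.le h.2) (Hs_le_Lo S hl h.1)

theorem Asy.dd {l : ℤ} {f g : KK J} (h : Asy S l f g) (j : J) :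
    Asy S (l + dg S j) (dd j f) (dd j g) :=
  ⟨dd_Hs S j h.1, by rw [← map_sub]; exact dd_Lo S j h.2⟩

theorem alg_mem_Hs (c : ℂ) : algebraMap ℂ (KK J) c ∈ Hs S 0 := by
  rw [mem_Hs, Derivation.map_algebraMap, Int.cast_zero, zero_smul]

theorem X_mem_Hs (j : J) : ι0 (X j : MvPolynomial J ℂ) ∈ Hs S (-dg S j) := by
  rw [mem_Hs, exD_alg, eul_X, dg]
  by_cases hj : S j
  · simp [hj]
  · simp [hj]

end

section

variable {J : Type} [Fintype J] [DecidableEq J] {S : J → Prop} [DecidablePred S]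
    {ω θ : J → KK J} {hω : ∀ i j, dd i (ω j) = dd j (ω i)}

/-- `dd j f + ω j f` -/
theorem step_d (hθ1 : ∀ j, ¬ S j → exD (eul S) (θ j) = θ j)
    (hl1 : ∀ j, ¬ S j → exD (eul S) (ω j - θ j) = 0)
    (hθ0 : ∀ j, S j → exD (eul S) (θ j) = 0)
    (hl0 : ∀ j, S j → exD (eul S) (ω j - θ j) = -(ω j - θ j))
    {l : ℤ} {f g : KK J} (h : Asy S l f g) (j : J) :
    Asy S (l + 1 + dg S j) (dd j f + ω j * f) (θ j * g) := by
  have hθ : θ j ∈ Hs S (1 + dg S j) := by
    rw [mem_Hs, dg]
    by_cases hj : S j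
    · rw [hθ0 j hj, if_pos hj]; simp
    · rw [hθ1 j hj, if_neg hj]; simp
  have hl : ω j - θ j ∈ Hs S (dg S j) := by
    rw [mem_Hs, dg]
    by_cases hj : S j
    · rw [hl0 j hj, if_pos hj]; simp
    · rw [hl1 j hj, if_neg hj]; simp
  have h1 := Asy.mul hθ h
  rw [← add_assoc] at h1
  have h2 : dd j f + ω j * f = θ j * f + (dd j f + (ω j - θ j) * f) := by ring
  rw [h2]
  refine h1.add_low (Submodule.add_mem _ ((h.dd j).low (by omega)) ?_)
  exact (Asy.mul hl h).low (by omega)

theorem step_x (hθ1 : ∀ j, ¬ S j → exD (eul S) (θ j) = θ j)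
    (hl1 : ∀ j, ¬ S j → exD (eul S) (ω j - θ j) = 0)
    (hθ0 : ∀ j, S j → exD (eul S) (θ j) = 0)
    (hl0 : ∀ j, S j → exD (eul S) (ω j - θ j) = -(ω j - θ j))
    {l : ℤ} {f g : KK J} (h : Asy S l f g) (j : J) :
    Asy S l (((twist ω hω).unfourier S).x j f) ((if S j then -θ j else ι0 (X j)) * g) := by
  by_cases hj : S j
  · have h1 := step_d hθ1 hl1 hθ0 hl0 h j
    rw [dg, if_pos hj] at h1
    have h2 := Asy.mul (alg_mem_Hs (-1)) h1
    rw [add_zero, add_neg_cancel_right, map_neg, map_one, neg_one_mul, neg_one_mul] at h2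
    have h3 : ((twist ω hω).unfourier S).x j f = -(dd j f + ω j * f) := by
      simp only [WeylModule.unfourier, if_pos hj]
      rfl
    rw [h3, if_pos hj, neg_mul]
    exact h2
  · have h1 := Asy.mul (X_mem_Hs j) h
    rw [dg, if_neg hj, neg_zero, add_zero] at h1
    have h3 : ((twist ω hω).unfourier S).x j f = ι0 (X j) * f := by
      simp only [WeylModule.unfourier, if_neg hj]
      rfl
    rw [h3, if_neg hj]
    exact h1

theorem step_dd (hθ1 : ∀ j, ¬ S j → exD (eul S) (θ j) = θ j)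
    (hl1 : ∀ j, ¬ S j → exD (eul S) (ω j - θ j) = 0)
    (hθ0 : ∀ j, S j → exD (eul S) (θ j) = 0)
    (hl0 : ∀ j, S j → exD (eul S) (ω j - θ j) = -(ω j - θ j))
    {l : ℤ} {f g : KK J} (h : Asy S l f g) (j : J) :
    Asy S (l + 1) (((twist ω hω).unfourier S).d j f) ((if S j then ι0 (X j) else θ j) * g) := by
  by_cases hj : S j
  · have h1 := Asy.mul (X_mem_Hs j) h
    rw [dg, if_pos hj, neg_neg] at h1
    have h3 : ((twist ω hω).unfourier S).d j f = ι0 (X j) * f := by
      simp only [WeylModule.unfourier, if_pos hj]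
      rfl
    rw [h3, if_pos hj]
    exact h1
  · have h1 := step_d hθ1 hl1 hθ0 hl0 h j
    rw [dg, if_neg hj, add_zero] at h1
    have h3 : ((twist ω hω).unfourier S).d j f = dd j f + ω j * f := by
      simp only [WeylModule.unfourier, if_neg hj]
      rfl
    rw [h3, if_neg hj]
    exact h1

theorem step_fn {W : WeylModule J (KK J)} {Xt : J → KK J}
    (hx : ∀ (l : ℤ) (f g : KK J), Asy S l f g → ∀ j, Asy S l (W.x j f) (Xt j * g))
    (p : MvPolynomial J ℂ) : ∀ (l : ℤ) (f g : KK J), Asy S l f g →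
      Asy S l (W.fn p f) (eval₂Hom (algebraMap ℂ (KK J)) Xt p * g) := by
  induction p using MvPolynomial.induction_on with
  | C a =>
    intro l f g h
    have h1 := Asy.mul (alg_mem_Hs a) h
    rw [add_zero] at h1
    rw [WeylModule.fn_C, Module.algebraMap_end_apply, Algebra.smul_def, eval₂Hom_C]
    exact h1
  | add p q hp hq =>
    intro l f g h
    rw [map_add, map_add, LinearMap.add_apply, add_mul]
    exact (hp l f g h).add (hq l f g h)
  | mul_X p j hp =>
    intro l f g h
    rw [map_mul, map_mul, Module.End.mul_apply, WeylModule.fn_X, eval₂Hom_X', mul_assoc]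
    exact hp l _ _ (hx l f g h j)

theorem step_dop {W : WeylModule J (KK J)} {Ξt : J → KK J}
    (hx : ∀ (l : ℤ) (f g : KK J), Asy S l f g → ∀ j, Asy S (l + 1) (W.d j f) (Ξt j * g))
    (μ : J →₀ ℕ) : ∀ (l : ℤ) (f g : KK J), Asy S l f g →
      Asy S (l + μ.degree) (W.dop (monomial μ 1) f) ((μ.prod fun i k => Ξt i ^ k) * g) := by
  induction μ using Finsupp.induction_linear with
  | zero =>
    intro l f g h
    have h1 : (monomial (0 : J →₀ ℕ)) (1 : ℂ) = 1 := rfl
    rw [h1, map_one, map_zero, Finsupp.prod_zero_index, one_mul]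
    simpa using h
  | add μ ν hμ hν =>
    intro l f g h
    have h1 : (monomial (μ + ν)) (1 : ℂ) = monomial μ 1 * monomial ν 1 := by
      rw [monomial_mul, one_mul]
    rw [h1, map_mul, Module.End.mul_apply, map_add, Finsupp.prod_add_index' (by simp)
      (fun a b c => pow_add _ _ _), mul_assoc]
    have h2 := hμ _ _ _ (hν l f g h)
    push_cast at h2 ⊢
    rw [add_assoc, add_comm ((ν.degree : ℕ) : ℤ)] at h2
    exact h2
  | single a b =>
    intro l f g h
    have h1 : (monomial (Finsupp.single a b)) (1 : ℂ) = X a ^ b := by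
      rw [X_pow_eq_monomial]
    have h2 : ((Finsupp.single a b).prod fun i k => Ξt i ^ k) = Ξt a ^ b :=
      Finsupp.prod_single_index (pow_zero _)
    rw [h1, map_pow, WeylModule.dop_X, h2, Finsupp.degree_single]
    clear h1 h2
    induction b with
    | zero => simpa using h
    | succ b ih =>
      rw [pow_succ', pow_succ', Module.End.mul_apply, mul_assoc]
      have := hx _ _ _ ih a
      push_cast
      rw [← add_assoc]
      exact this

end

theorem symbol_vanish {J : Type} [Fintype J] [DecidableEq J] (S : J → Prop) [DecidablePred S]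
    (ω θ : J → KK J) (hω : ∀ i j, dd i (ω j) = dd j (ω i))
    (hθ1 : ∀ j, ¬ S j → exD (eul S) (θ j) = θ j)
    (hl1 : ∀ j, ¬ S j → exD (eul S) (ω j - θ j) = 0)
    (hθ0 : ∀ j, S j → exD (eul S) (θ j) = 0)
    (hl0 : ∀ j, S j → exD (eul S) (ω j - θ j) = -(ω j - θ j))
    (u : KK J) (hu : u ≠ 0) (k : ℤ) (hk : exD (eul S) u = (k : ℂ) • u) (m : ℕ)
    (P : MvPolynomial J (MvPolynomial J ℂ)) (hP : P.totalDegree ≤ m)
    (h0 : ((twist ω hω).unfourier S).op P u = 0) :
    eval₂Hom (eval₂Hom (algebraMap ℂ (KK J)) (fun j => if S j then -θ j else ι0 (X j)))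
      (fun j => if S j then ι0 (X j) else θ j) (homogeneousComponent m P) = 0 := by
  set Xt : J → KK J := fun j => if S j then -θ j else ι0 (X j) with hXt
  set Ξt : J → KK J := fun j => if S j then ι0 (X j) else θ j with hΞt
  set W := (twist ω hω).unfourier S with hW
  have hx : ∀ (l : ℤ) (f g : KK J), Asy S l f g → ∀ j, Asy S l (W.x j f) (Xt j * g) :=
    fun l f g h j => step_x hθ1 hl1 hθ0 hl0 h j
  have hd : ∀ (l : ℤ) (f g : KK J), Asy S l f g → ∀ j, Asy S (l + 1) (W.d j f) (Ξt j * g) :=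
    fun l f g h j => step_dd hθ1 hl1 hθ0 hl0 h j
  have hu0 : Asy S k u u := ⟨(mem_Hs S).2 hk, by rw [sub_self]; exact Submodule.zero_mem _⟩
  have key : ∀ μ : J →₀ ℕ, Asy S (k + μ.degree) (W.fn (P.coeff μ) (W.dop (monomial μ 1) u))
      (eval₂Hom (eval₂Hom (algebraMap ℂ (KK J)) Xt) Ξt (monomial μ (P.coeff μ)) * u) := by
    intro μ
    rw [eval₂Hom_monomial, mul_assoc]
    exact step_fn hx _ _ _ _ (step_dop hd μ _ _ _ hu0)
  have hsum : Asy S (k + m) (W.op P u) (eval₂Hom (eval₂Hom (algebraMap ℂ (KK J)) Xt) Ξt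
      (homogeneousComponent m P) * u) := by
    rw [homogeneousComponent_apply, map_sum, Finset.sum_mul, Finset.sum_filter, WeylModule.op,
      LinearMap.sum_apply]
    have h1 : ∀ s ⊆ P.support, Asy S (k + m)
        (∑ μ ∈ s, (W.fn (P.coeff μ) * W.dop (monomial μ 1)) u)
        (∑ μ ∈ s, if μ.degree = m then eval₂Hom (eval₂Hom (algebraMap ℂ (KK J)) Xt) Ξt
          (monomial μ (P.coeff μ)) * u else 0) := by
      intro s
      induction s using Finset.induction_on with
      | empty => intro _; rw [Finset.sum_empty, Finset.sum_empty]; exact Asy.zero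
      | insert a s ha ih =>
        intro hs
        rw [Finset.sum_insert ha, Finset.sum_insert ha]
        refine Asy.add ?_ (ih ((Finset.subset_insert _ _).trans hs))
        by_cases h : a.degree = m
        · rw [if_pos h, ← h]
          exact key a
        · rw [if_neg h]
          refine ⟨Submodule.zero_mem _, ?_⟩
          rw [sub_zero]
          refine (key a).low ?_
          have h2 : a.degree ≤ m := by
            refine le_trans ?_ hP
            exact le_totalDegree (hs (Finset.mem_insert_self _ _))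
          have h3 : a.degree < m := lt_of_le_of_ne h2 h
          have h4 : (a.degree : ℤ) < m := by exact_mod_cast h3
          omega
    exact h1 _ (Finset.Subset.refl _)
  rw [h0] at hsum
  have h5 := hsum.2
  rw [zero_sub] at h5
  have h6 := Hs_inf_Lo S hsum.1 (by simpa using Submodule.neg_mem _ h5)
  exact (mul_eq_zero.1 h6).resolve_right hu

end Pool.Agent.H495.S4
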