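import Pool.Agent.H812.SF.Stm3

set_option autoImplicit false

/-! Project SF (helper812), part ONEN (helper337); adapted from helper997's proof of PAR. -/

namespace Pool.Agent.H337.SfONEN

open Pool.Agent.N229.SC Pool.Agent.H812.SF

theorem no_zero (x c : ℕ → ℝ) (hx : ∀ m, x (m + 2) = c m * x (m + 1) - x m) (k : ℕ)
    (h0 : x k = 0) (h1 : x (k + 1) = 0) : ∀ j, x (k + j) = 0 ∧ x (k + j + 1) = 0 := by
  intro j
  induction j with
  | zero => exact ⟨h0, h1⟩
  | succ j ih =>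
    refine ⟨ih.2, ?_⟩
    have h := hx (k + j)
    rw [ih.1, ih.2] at h
    have e : k + (j + 1) + 1 = k + j + 2 := by ring
    rw [e, h]
    ring

theorem proof_ONEN (hN : S_N1) : S_ONEN := by
  intro ρ n hρ1 hn1 hn2 h1 hn4 hn5
  have hρ0 : 0 < ρ := by
    have : (0 : ℝ) < 10 ^ 4 := by norm_num
    linarith
  obtain ⟨hrec, ⟨C, hC⟩, hpos⟩ := hN ρ hρ0
  obtain ⟨x, hxd⟩ : ∃ x : ℕ → ℝ, x = fun m => Fb ρ m := ⟨_, rfl⟩
  obtain ⟨c, hcd⟩ : ∃ c : ℕ → ℝ, c = fun m : ℕ => 2 * ((m : ℝ) + 1) / ρ := ⟨_, rfl⟩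
  have hx : ∀ m, x (m + 2) = c m * x (m + 1) - x m := by
    intro m
    rw [hxd, hcd]
    have := hrec m
    simp only
    linarith
  have hnz : ∀ k, ¬ (x k = 0 ∧ x (k + 1) = 0) := by
    rintro k ⟨h2, h3⟩
    obtain ⟨j, hj⟩ := exists_nat_ge ρ
    have h4 := (no_zero x c hx k h2 h3 j).1
    have h6 := (hpos (k + j) (by
      push_cast
      have : (0 : ℝ) ≤ k := Nat.cast_nonneg k
      linarith)).1
    rw [hxd] at h4
    simp only at h4
    rw [h4] at h6
    exact lt_irrefl _ h6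
  have hn4' : 0 < -(x n / x (n + 1)) := by rw [hxd]; exact hn4
  have hn5' : -(x n / x (n + 1)) ≤ 31 / 10 ^ 10 := by rw [hxd]; exact hn5
  have hn3 : x (n + 1) ≠ 0 := by
    intro h
    rw [h, div_zero, neg_zero] at hn4'
    exact lt_irrefl _ hn4'
  have hx1 : x 1 = 0 := by
    rw [hxd]
    exact h1
  have hx2 : x 2 ≠ 0 := fun h => hnz 1 ⟨hx1, h⟩
  have hCx : ∀ m, |x m| ≤ C := by
    intro m
    rw [hxd]
    exact hC m
  have hC0 : 0 ≤ C := (abs_nonneg _).trans (hCx 0)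
  refine ⟨⟨ρ, n, fun i => -(x (n + i) / x (n + 1)), fun i => -(x (1 + i) / x 2)⟩, ?_, rfl, rfl,
    ?_, C / |x (n + 1)| + C / |x 2|, ?_⟩
  · refine ⟨by show (10000 : ℝ) ≤ ρ; norm_num at hρ1; exact hρ1, ?_, ?_, ?_, ?_, ?_, ?_, ?_, ?_, ?_⟩
    · show 4 / 5 ≤ (n : ℝ) / ρ
      rw [le_div_iff₀ hρ0]
      exact hn1
    · show (n : ℝ) / ρ ≤ 41 / 50
      rw [div_le_iff₀ hρ0]
      exact hn2
    · show -(x (n + 1) / x (n + 1)) = -1
      rw [div_self hn3]
    · show -(x (1 + 1) / x 2) = -1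
      rw [div_self hx2]
    · show 0 < -(x (n + 0) / x (n + 1))
      exact hn4'
    · show -(x (n + 0) / x (n + 1)) ≤ 31 / 10 ^ 10
      exact hn5'
    · show |-(x (1 + 0) / x 2)| ≤ -(x (n + 0) / x (n + 1)) / 10 ^ 6
      rw [show (1 + 0 : ℕ) = 1 from rfl, hx1, zero_div, neg_zero, abs_zero]
      have : 0 ≤ -(x (n + 0) / x (n + 1)) := hn4'.le
      positivity
    · intro i
      show -(x (n + (i + 2)) / x (n + 1)) = 2 * ((n : ℝ) + i + 1) / ρ *
        -(x (n + (i + 1)) / x (n + 1)) - -(x (n + i) / x (n + 1))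
      have h6 := hx (n + i)
      rw [hcd] at h6
      simp only at h6
      push_cast at h6
      rw [show n + (i + 2) = n + i + 2 by ring, show n + (i + 1) = n + i + 1 by ring, h6]
      ring
    · intro i
      show -(x (1 + (i + 2)) / x 2) = 2 * ((i : ℝ) + 2) / ρ * -(x (1 + (i + 1)) / x 2) -
        -(x (1 + i) / x 2)
      have h6 := hx (1 + i)
      rw [hcd] at h6
      simp only at h6
      push_cast at h6
      rw [show 1 + (i + 2) = 1 + i + 2 by ring, show 1 + (i + 1) = 1 + i + 1 by ring, h6]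
      ring
  · show -(x (n + 0) / x (n + 1)) = -(Fb ρ n / Fb ρ (n + 1))
    rw [hxd]
    rfl
  · intro i
    have e1 : 0 < |x (n + 1)| := abs_pos.2 hn3
    have e2 : 0 < |x 2| := abs_pos.2 hx2
    have e3 : 0 ≤ C / |x (n + 1)| := by positivity
    have e4 : 0 ≤ C / |x 2| := by positivity
    constructor
    · show |-(x (n + i) / x (n + 1))| ≤ C / |x (n + 1)| + C / |x 2|
      rw [abs_neg, abs_div]
      have := div_le_div_of_nonneg_right (hCx (n + i)) e1.le
      linarith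
    · show |-(x (1 + i) / x 2)| ≤ C / |x (n + 1)| + C / |x 2|
      rw [abs_neg, abs_div]
      have := div_le_div_of_nonneg_right (hCx (1 + i)) e2.le
      linarith

end Pool.Agent.H337.SfONEN
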